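import Mathlib

/-!
# MP_419f2f_co (Q1): the number of distinct shortest-cover lengths over cyclic shifts is `O(log n)`

For every word `S` of length `n ≥ 2` over any alphabet, `|CyCoSet(S)| ≤ 15 log n`.

Idea.  Let `w` be the bi-infinite word with period `S`.  If `ℓ ∈ CyCoSet(S)` with witness `C` then
`C` is superprimitive, covers `w`, and `CC` occurs in `w`.  If `ℓ < m` are two such lengths with
words `C`, `D`, then (comparing a covering of `w` by `C` with the square `DD`) the word `D^ω`
contains `C` exactly twice per period, at distances `d > e` with `d + e = m`; hence the prefix and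
the suffix of `C` of length `ℓ - e` (about half of `C`) have the short period `d - e < m - ℓ`.
For three such lengths `ℓ < m < m'` with `5 (m' - ℓ) ≤ m`, both `C` and `D` have this shape, and
this forces `D` to be covered by its prefix of length `e`, a contradiction.  So every interval
`(5N/6, N]` contains at most two elements of `CyCoSet(S)`.
-/

namespace Pool.Agent.Results.MP_419f2f_co.LogBound

universe u

/-- `C` occurs in `S` as a factor (contiguous substring) starting at position `s`. -/
def OccursAt {α : Type u} (C S : List α) (s : ℕ) : Prop := C <+: S.drop s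

/-- `C` is a cover of `S`: `C` is non-empty and every position `p` of `S` lies inside at least one
occurrence of `C` as a factor of `S`. -/
def IsCover {α : Type u} (C S : List α) : Prop :=
  C ≠ [] ∧ ∀ p < S.length, ∃ s ≤ p, p < s + C.length ∧ OccursAt C S s

/-- `C` is a shortest cover of `S`. -/
def IsShortestCover {α : Type u} (C S : List α) : Prop :=
  IsCover C S ∧ ∀ C', IsCover C' S → C.length ≤ C'.length

/-- The set of the lengths of the shortest covers of the cyclic shifts of `S`. -/
def CyCoSet {α : Type u} (S : List α) : Set ℕ :=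
  {l | ∃ i < S.length, ∃ C, IsShortestCover C (S.rotate i) ∧ C.length = l}

section core
variable {α : Type u}

/-- `v` has period `a` on the window `[s, t)`. -/
def Per (v : ℤ → α) (a s t : ℤ) : Prop := ∀ k, s ≤ k → k + a < t → v (k + a) = v k

theorem Per.chain {v : ℤ → α} {b s t : ℤ} (h : Per v b s t) (hb : 0 < b) (q : ℕ) :
    ∀ x, s ≤ x → x + q * b < t → v (x + q * b) = v x := by
  induction q with
  | zero => intro x _ _; simp
  | succ q ih =>
    intro x hx hlt
    have h1 : x + ((q + 1 : ℕ) : ℤ) * b = (x + q * b) + b := by push_cast; ring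
    rw [h1] at hlt ⊢
    have hq : (0 : ℤ) ≤ q * b := by positivity
    rw [h _ (by omega) hlt]
    exact ih x hx (by omega)

theorem Per.mono {v : ℤ → α} {a s t s' t' : ℤ} (h : Per v a s t) (hs : s ≤ s') (ht : t' ≤ t) :
    Per v a s' t' := fun k hk hk' => h k (by omega) (by omega)

theorem Per.union {v : ℤ → α} {a s₁ t₁ s₂ t₂ : ℤ} (h₁ : Per v a s₁ t₁) (h₂ : Per v a s₂ t₂)
    (h : s₂ + a ≤ t₁) : Per v a s₁ t₂ := by
  intro k hk hk'
  by_cases hlt : k + a < t₁
  · exact h₁ k hk hlt
  · exact h₂ k (by omega) hk'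

/-- If `v` has period `a` on one window, period `b` on another, and the windows overlap in at
least `a + b` positions, then `v` has period `a` on the second window too. -/
theorem Per.transfer {v : ℤ → α} {a b s₁ t₁ s₂ t₂ : ℤ} (lo : ℤ) (ha : 0 < a) (hb : 0 < b)
    (h₁ : Per v a s₁ t₁) (h₂ : Per v b s₂ t₂) (hs₁ : s₁ ≤ lo) (hs₂ : s₂ ≤ lo)
    (ht₁ : lo + a + b ≤ t₁) (ht₂ : lo + a + b ≤ t₂) : Per v a s₂ t₂ := by
  intro k hk hk'
  set r := (k - lo) % b with hr
  have hr0 : 0 ≤ r := Int.emod_nonneg _ (by omega)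
  have hr1 : r < b := Int.emod_lt_of_pos _ hb
  have hdiv : k - lo = b * ((k - lo) / b) + r := by
    have := Int.mul_ediv_add_emod (k - lo) b; omega
  set q := (k - lo) / b with hq
  have hmid : v (lo + r + a) = v (lo + r) := h₁ _ (by omega) (by omega)
  rcases le_or_gt 0 q with hq0 | hq0
  · -- k = lo + r + q*b
    obtain ⟨Q, hQ⟩ := Int.eq_ofNat_of_zero_le hq0
    have e1 : k = (lo + r) + Q * b := by rw [← hQ]; linarith [mul_comm b q]
    have e2 : k + a = (lo + r + a) + Q * b := by rw [e1]; ring
    have hQb : (0 : ℤ) ≤ Q * b := by positivity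
    rw [e2, h₂.chain hb Q _ (by omega) (by omega), hmid, e1,
      h₂.chain hb Q _ (by omega) (by omega)]
  · obtain ⟨Q, hQ⟩ := Int.eq_ofNat_of_zero_le (show 0 ≤ -q by omega)
    have e1 : lo + r = k + Q * b := by
      rw [← hQ]; linarith [mul_comm b q]
    have e2 : lo + r + a = (k + a) + Q * b := by rw [e1]; ring
    have h3 : v (lo + r) = v k := by
      rw [e1]; exact h₂.chain hb Q _ hk (by rw [← e1]; omega)
    have h4 : v (lo + r + a) = v (k + a) := by
      rw [e2]; exact h₂.chain hb Q _ (by omega) (by rw [← e2]; omega)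
    rw [← h3, ← h4, hmid]

/-- The word `c[0, ℓ)` has no cover shorter than itself. -/
def SP (c : ℤ → α) (ℓ : ℤ) : Prop :=
  ∀ e, 0 < e → e < ℓ → ¬ (∀ t, 0 ≤ t → t < ℓ → ∃ s, 0 ≤ s ∧ s + e ≤ ℓ ∧ s ≤ t ∧ t < s + e ∧
    ∀ k, 0 ≤ k → k < e → c (s + k) = c k)

theorem SP.noPer {c : ℤ → α} {ℓ : ℤ} (h : SP c ℓ) {p : ℤ} (hp : 0 < p) (hp2 : 2 * p ≤ ℓ) :
    ¬ Per c p 0 ℓ := by
  intro hper
  refine h (ℓ - p) (by omega) (by omega) ?_
  intro t ht htl
  by_cases hlt : t < ℓ - p
  · exact ⟨0, le_refl _, by omega, ht, by omega, fun k _ _ => by rw [zero_add]⟩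
  · refine ⟨p, by omega, by omega, by omega, by omega, ?_⟩
    intro k hk hk'
    rw [add_comm p k]
    exact hper k hk (by omega)

theorem SP.noThree {c : ℤ → α} {ℓ : ℤ} (h : SP c ℓ) {e a b : ℤ} (he : 0 < e) (heℓ : e < ℓ)
    (ha0 : 0 ≤ a) (ha : a ≤ e) (hb : b ≤ a + e) (hb0 : a ≤ b) (hbe : b + e = ℓ)
    (h1 : ∀ k, 0 ≤ k → k < e → c (a + k) = c k)
    (h2 : ∀ k, 0 ≤ k → k < e → c (b + k) = c k) : False := by
  refine h e he heℓ ?_
  intro t ht htl
  by_cases h3 : t < e
  · exact ⟨0, le_refl _, by omega, ht, by omega, fun k _ _ => by rw [zero_add]⟩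
  · by_cases h4 : t < a + e
    · exact ⟨a, ha0, by omega, by omega, h4, h1⟩
    · exact ⟨b, by omega, by omega, by omega, by omega, h2⟩

/-- Two different occurrences of a superprimitive word are far apart. -/
theorem SP.dist {c v : ℤ → α} {ℓ : ℤ} (h : SP c ℓ) {s s' : ℤ} (hss : s < s')
    (h1 : ∀ k, 0 ≤ k → k < ℓ → v (s + k) = c k)
    (h2 : ∀ k, 0 ≤ k → k < ℓ → v (s' + k) = c k) : ℓ < 2 * (s' - s) := by
  by_contra hcon
  push Not at hcon
  refine h.noPer (p := s' - s) (by omega) hcon ?_
  intro k hk hk'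
  have e1 := h1 (k + (s' - s)) (by omega) hk'
  have e2 := h2 k hk (by omega)
  rw [← e1, ← e2]
  congr 1; ring

/-- A word `c[0, ℓ)` covers the bi-infinite word `w`. -/
def Cov (c w : ℤ → α) (ℓ : ℤ) : Prop :=
  ∀ t, ∃ s, s ≤ t ∧ t < s + ℓ ∧ ∀ k, 0 ≤ k → k < ℓ → w (s + k) = c k

/-- Let the superprimitive word `c` cover `w`, and let `w` contain a square of root length `m`
with `ℓ < m`.  Then the `m`-periodic word `v` obtained from the square contains `c` twice
per period. -/
theorem twoOcc {c w v : ℤ → α} {ℓ m j : ℤ} (hsp : SP c ℓ) (hcov : Cov c w ℓ)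
    (hlm : ℓ < m) (hv : ∀ t, v (t + m) = v t)
    (hvw : ∀ t, j - m ≤ t → t < j + m → v t = w t) :
    ∃ p d e, e ≤ d ∧ d + e = m ∧ ℓ < 2 * e ∧ (∀ k, 0 ≤ k → k < ℓ → v (p + k) = c k) ∧
      (∀ k, 0 ≤ k → k < ℓ → v (p + d + k) = c k) := by
  -- it is enough to find two occurrences in the window
  have key : ∀ s₁ s₂, j - m ≤ s₁ → s₁ < s₂ → s₂ ≤ j + m - ℓ → s₂ - s₁ ≤ ℓ →
      (∀ k, 0 ≤ k → k < ℓ → w (s₁ + k) = c k) → (∀ k, 0 ≤ k → k < ℓ → w (s₂ + k) = c k) →
      ∃ p d e, e ≤ d ∧ d + e = m ∧ ℓ < 2 * e ∧ (∀ k, 0 ≤ k → k < ℓ → v (p + k) = c k) ∧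
      (∀ k, 0 ≤ k → k < ℓ → v (p + d + k) = c k) := by
    intro s₁ s₂ h1 h2 h3 h4 o1 o2
    have o1' : ∀ k, 0 ≤ k → k < ℓ → v (s₁ + k) = c k := fun k hk hk' => by
      rw [hvw _ (by omega) (by omega)]; exact o1 k hk hk'
    have o2' : ∀ k, 0 ≤ k → k < ℓ → v (s₂ + k) = c k := fun k hk hk' => by
      rw [hvw _ (by omega) (by omega)]; exact o2 k hk hk'
    have o3' : ∀ k, 0 ≤ k → k < ℓ → v (s₁ + m + k) = c k := fun k hk hk' => by
      rw [show s₁ + m + k = s₁ + k + m by ring, hv]; exact o1' k hk hk'
    have d1 := hsp.dist h2 o1' o2'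
    have d2 := hsp.dist (show s₂ < s₁ + m by omega) o2' o3'
    rcases le_total (s₁ + m - s₂) (s₂ - s₁) with h | h
    · exact ⟨s₁, s₂ - s₁, s₁ + m - s₂, h, by ring, by omega, o1', fun k hk hk' => by
        rw [show s₁ + (s₂ - s₁) + k = s₂ + k by ring]; exact o2' k hk hk'⟩
    · exact ⟨s₂, s₁ + m - s₂, s₂ - s₁, h, by ring, by omega, o2', fun k hk hk' => by
        rw [show s₂ + (s₁ + m - s₂) + k = s₁ + m + k by ring]; exact o3' k hk hk'⟩
  obtain ⟨p, hp1, hp2, op⟩ := hcov (j + m - ℓ)
  obtain ⟨p₀, hp01, hp02, op0⟩ := hcov (p - 1)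
  by_cases hA : j - m ≤ p₀
  · exact key p₀ p hA (by omega) hp1 (by omega) op0 op
  push Not at hA
  obtain ⟨p₁, hp11, hp12, op1⟩ := hcov (p + ℓ)
  by_cases hB : p₁ ≤ j + m - ℓ
  · exact key p p₁ (by omega) (by omega) hB (by omega) op op1
  push Not at hB
  exfalso
  -- the single-occurrence case
  set g₁ := m - (p₁ - p) with hg₁
  set g₂ := m - (p - p₀) with hg₂
  have per1 : Per c g₁ 0 (j + m - p₁) := by
    intro k hk hk'
    have e1 : w (p₁ + (k + g₁)) = c (k + g₁) := op1 _ (by omega) (by omega)
    have e2 : v (p₁ + (k + g₁)) = w (p₁ + (k + g₁)) := hvw _ (by omega) (by omega)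
    have e3 : v (p + k) = w (p + k) := hvw _ (by omega) (by omega)
    have e4 : w (p + k) = c k := op _ hk (by omega)
    have e5 : v (p + k + m) = v (p + k) := hv _
    rw [← e1, ← e2, ← e4, ← e3, ← e5]
    congr 1; omega
  have per2 : Per c g₂ (j - m - p₀) ℓ := by
    intro k hk hk'
    have e1 : w (p₀ + k) = c k := op0 _ (by omega) (by omega)
    have e2 : v (p₀ + k) = w (p₀ + k) := hvw _ (by omega) (by omega)
    have e3 : v (p + (k + g₂)) = w (p + (k + g₂)) := hvw _ (by omega) (by omega)
    have e4 : w (p + (k + g₂)) = c (k + g₂) := op _ (by omega) (by omega)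
    have e5 : v (p₀ + k + m) = v (p₀ + k) := hv _
    rw [← e1, ← e2, ← e4, ← e3, ← e5]
    congr 1; omega
  have hg1 : 0 < g₁ := by omega
  have hg2 : 0 < g₂ := by omega
  have all1 : Per c g₁ 0 ℓ := by
    have h2 : Per c g₁ (j - m - p₀) ℓ :=
      Per.transfer (j - m - p₀) hg1 hg2 per1 per2 (by omega) (by omega) (by omega) (by omega)
    exact per1.union h2 (by omega)
  have all2 : Per c g₂ 0 ℓ := by
    have h2 : Per c g₂ 0 (j + m - p₁) :=
      Per.transfer (j - m - p₀) hg2 hg1 per2 per1 (by omega) (by omega) (by omega) (by omega)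
    exact h2.union per2 (by omega)
  rcases le_total g₁ g₂ with h | h
  · exact hsp.noPer hg1 (by omega) all1
  · exact hsp.noPer hg2 (by omega) all2

/-- The two occurrences have different distances, and the long prefix and suffix of `c` have a
short period. -/
theorem structure_of_pair {c w v : ℤ → α} {ℓ m j : ℤ} (hsp : SP c ℓ)
    (hcov : Cov c w ℓ)
    (hlm : ℓ < m) (hm : 2 * m ≤ 3 * ℓ) (hv : ∀ t, v (t + m) = v t)
    (hvw : ∀ t, j - m ≤ t → t < j + m → v t = w t)
    (hspD' : SP (fun k => v (j + k)) m) :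
    ∃ p d e, e < d ∧ d + e = m ∧ ℓ < 2 * e ∧ (∀ k, 0 ≤ k → k < ℓ → v (p + k) = c k) ∧
      (∀ k, 0 ≤ k → k < ℓ → v (p + d + k) = c k) ∧
      Per c (d - e) 0 (ℓ - e) ∧ Per c (d - e) e ℓ := by
  obtain ⟨p, d, e, hed, hde, he, o1, o2⟩ := twoOcc hsp hcov hlm hv hvw
  have o3 : ∀ k, 0 ≤ k → k < ℓ → v (p + m + k) = c k := fun k hk hk' => by
    rw [show p + m + k = p + k + m by ring, hv]; exact o1 k hk hk'
  have hperd : ∀ k, 0 ≤ k → k + d < ℓ → c (k + d) = c k := by
    intro k hk hk'
    rw [← o1 (k + d) (by omega) hk', ← o2 k hk (by omega)]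
    congr 1; ring
  have hpere : ∀ k, 0 ≤ k → k + e < ℓ → c (k + e) = c k := by
    intro k hk hk'
    rw [← o2 (k + e) (by omega) hk', ← o3 k hk (by omega)]
    congr 1; omega
  have hne : e ≠ d := by
    intro heq
    subst heq
    -- `v` has period `e` everywhere
    have h1 : ∀ t, p ≤ t → t < p + m → v (t + e) = v t := by
      intro t ht ht'
      by_cases hlt : t < p + ℓ
      · have a1 := o1 (t - p) (by omega) (by omega)
        have a2 := o2 (t - p) (by omega) (by omega)
        rw [show p + (t - p) = t by ring] at a1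
        rw [show p + e + (t - p) = t + e by ring] at a2
        rw [a1, a2]
      · have a1 := o2 (t - p - e) (by omega) (by omega)
        have a2 := o3 (t - p - e) (by omega) (by omega)
        rw [show p + e + (t - p - e) = t by ring] at a1
        rw [show p + m + (t - p - e) = t + e by omega] at a2
        rw [a1, a2]
    have hvz : ∀ (q : ℤ) t, v (t + q * m) = v t := by
      intro q
      induction q using Int.induction_on with
      | zero => intro t; simp
      | succ i ih => intro t; rw [show t + ((i : ℤ) + 1) * m = (t + i * m) + m by ring, hv, ih]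
      | pred i ih =>
        intro t
        rw [← hv (t + (-(i : ℤ) - 1) * m), show t + (-(i : ℤ) - 1) * m + m = t + (-(i : ℤ)) * m by ring, ih]
    have h2 : ∀ t, v (t + e) = v t := by
      intro t
      have r0 : 0 ≤ (t - p) % m := Int.emod_nonneg _ (by omega)
      have r1 : (t - p) % m < m := Int.emod_lt_of_pos _ (by omega)
      have hdiv : m * ((t - p) / m) + (t - p) % m = t - p := Int.mul_ediv_add_emod (t - p) m
      have h3 := h1 (p + (t - p) % m) (by omega) (by omega)
      have h4 : t = p + (t - p) % m + ((t - p) / m) * m := by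
        rw [mul_comm]; omega
      rw [h4, hvz, show p + (t - p) % m + (t - p) / m * m + e = (p + (t - p) % m + e) + (t - p) / m * m by ring,
        hvz, h3]
    refine hspD'.noPer (p := e) (by omega) (by omega) ?_
    intro k _ _
    show v (j + (k + e)) = v (j + k)
    rw [← add_assoc]; exact h2 _
  refine ⟨p, d, e, by omega, hde, he, o1, o2, ?_, ?_⟩
  · intro k hk hk'
    rw [← hpere (k + (d - e)) (by omega) (by omega), show k + (d - e) + e = k + d by ring]
    exact hperd k hk (by omega)
  · intro k hk hk'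
    have a1 := hpere (k - e) (by omega) (by omega)
    have a2 := hperd (k - e) (by omega) (by omega)
    rw [show k - e + e = k by ring] at a1
    rw [show k - e + d = k + (d - e) by ring] at a2
    rw [a1, a2]

/-- Cut in the first part of the period. -/
theorem cutOne {c u : ℤ → α} {ℓ m d e x σ' β H : ℤ} (hu : ∀ t, u (t + m) = u t)
    (o1 : ∀ k, 0 ≤ k → k < ℓ → u k = c k) (o2 : ∀ k, 0 ≤ k → k < ℓ → u (d + k) = c k)
    (hed : e < d) (hde : d + e = m) (he : ℓ < 2 * e) (hlm : ℓ < m)
    (pre : Per c (d - e) 0 (ℓ - e)) (suf : Per c (d - e) e ℓ)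
    (hσ' : 0 < σ') (dpre : Per u σ' x (x + β)) (dsuf : Per u σ' (x - β) x)
    (hβ : 2 * β + (H - (m - ℓ)) = m + σ') (hσH : σ' < H - (m - ℓ)) (hH : 5 * H ≤ m)
    (hx0 : H ≤ x) (hx1 : 2 * x + 3 * H ≤ 2 * m)
    (hsp : SP (fun k => u (x + k)) m) : False := by
  set σ := d - e with hσ
  have hσ0 : 0 < σ := by omega
  have runA : Per u σ 0 (ℓ - e) := by
    intro k hk hk'
    rw [o1 _ (by omega) (by omega), o1 _ (by omega) (by omega)]
    exact pre k hk hk'
  have runB1 : Per u σ e ℓ := by
    intro k hk hk'
    rw [o1 _ (by omega) (by omega), o1 _ (by omega) (by omega)]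
    exact suf k hk hk'
  have runB2 : Per u σ d (d + (ℓ - e)) := by
    intro k hk hk'
    have a1 := o2 (k - d) (by omega) (by omega)
    have a2 := o2 (k - d + σ) (by omega) (by omega)
    rw [show d + (k - d) = k by ring] at a1
    rw [show d + (k - d + σ) = k + σ by ring] at a2
    rw [a1, a2]
    exact pre _ (by omega) (by omega)
  have runB : Per u σ e (d + (ℓ - e)) := runB1.union runB2 (by omega)
  have right : Per u σ x (d + (ℓ - e)) := by
    rcases le_total e x with h | h
    · exact runB.mono h le_rfl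
    · have h1 : Per u σ x (x + β) :=
        Per.transfer e hσ0 hσ' runB dpre le_rfl h (by omega) (by omega)
      exact h1.union runB (by omega)
  have left : Per u σ 0 x := by
    rcases le_total x (ℓ - e) with h | h
    · exact runA.mono le_rfl h
    · rcases le_total 0 (x - β) with h2 | h2
      · have h1 : Per u σ (x - β) x :=
          Per.transfer (x - β) hσ0 hσ' runA dsuf h2 le_rfl (by omega) (by omega)
        exact runA.union h1 (by omega)
      · have h1 : Per u σ (x - β) x :=
          Per.transfer 0 hσ0 hσ' runA dsuf le_rfl h2 (by omega) (by omega)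
        exact h1.mono h2 le_rfl
  have shifted : Per u σ d (d + x) := by
    intro k hk hk'
    have a1 := o2 (k - d) (by omega) (by omega)
    have a2 := o2 (k - d + σ) (by omega) (by omega)
    rw [show d + (k - d) = k by ring] at a1
    rw [show d + (k - d + σ) = k + σ by ring] at a2
    rw [a1, a2, ← o1 _ (by omega) (by omega), ← o1 (k - d) (by omega) (by omega)]
    exact left _ (by omega) (by omega)
  have Y : Per u σ x (d + x) := right.union shifted (by omega)
  have Z : ∀ t, 0 ≤ t → t < e → u (x + (d + t)) = u (x + t) := by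
    intro t ht hte
    by_cases hlt : x + t < ℓ
    · rw [o1 (x + t) (by omega) hlt, ← o2 (x + t) (by omega) hlt]
      congr 1; ring
    · rw [show x + (d + t) = (x + t - e) + m by omega, hu, o1 (x + t - e) (by omega) (by omega),
        ← o2 (x + t - e) (by omega) (by omega), show d + (x + t - e) = (x + t) + σ by omega]
      exact Y _ (by omega) (by omega)
  refine hsp.noThree (e := e) (a := σ) (b := d) (by omega) (by omega) (by omega) (by omega)
    (by omega) (by omega) hde ?_ ?_
  · intro k hk hk'
    show u (x + (σ + k)) = u (x + k)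
    rw [show x + (σ + k) = x + k + σ by ring]
    exact Y _ (by omega) (by omega)
  · intro k hk hk'
    exact Z k hk hk'

/-- Cut in the second part of the period. -/
theorem cutTwo {c u : ℤ → α} {ℓ m d e x σ' β H : ℤ} (hu : ∀ t, u (t + m) = u t)
    (o1 : ∀ k, 0 ≤ k → k < ℓ → u k = c k) (o2 : ∀ k, 0 ≤ k → k < ℓ → u (d + k) = c k)
    (hed : e < d) (hde : d + e = m) (he : ℓ < 2 * e) (hlm : ℓ < m)
    (pre : Per c (d - e) 0 (ℓ - e)) (suf : Per c (d - e) e ℓ)
    (hσ' : 0 < σ') (dpre : Per u σ' x (x + β)) (dsuf : Per u σ' (x - β) x)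
    (hβ : 2 * β + (H - (m - ℓ)) = m + σ') (hσH : σ' < H - (m - ℓ)) (hH : 5 * H ≤ m)
    (hx0 : m + 2 * H ≤ 2 * x) (hx1 : 2 * x + 2 * H ≤ 3 * m)
    (hsp : SP (fun k => u (x + k)) m) : False := by
  set σ := d - e with hσ
  have hσ0 : 0 < σ := by omega
  have runA : Per u σ 0 (ℓ - e) := by
    intro k hk hk'
    rw [o1 _ (by omega) (by omega), o1 _ (by omega) (by omega)]
    exact pre k hk hk'
  have runA' : Per u σ m (m + (ℓ - e)) := by
    intro k hk hk'
    rw [show k + σ = (k - m + σ) + m by ring, hu, show u k = u (k - m) by rw [← hu (k - m)]; congr 1; ring]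
    exact runA _ (by omega) (by omega)
  have runB1 : Per u σ e ℓ := by
    intro k hk hk'
    rw [o1 _ (by omega) (by omega), o1 _ (by omega) (by omega)]
    exact suf k hk hk'
  have runB2 : Per u σ d (d + (ℓ - e)) := by
    intro k hk hk'
    have a1 := o2 (k - d) (by omega) (by omega)
    have a2 := o2 (k - d + σ) (by omega) (by omega)
    rw [show d + (k - d) = k by ring] at a1
    rw [show d + (k - d + σ) = k + σ by ring] at a2
    rw [a1, a2]
    exact pre _ (by omega) (by omega)
  have runB : Per u σ e (d + (ℓ - e)) := runB1.union runB2 (by omega)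
  have left : Per u σ e x := by
    rcases le_total x (d + (ℓ - e)) with h | h
    · exact runB.mono le_rfl h
    · rcases le_total e (x - β) with h2 | h2
      · have h1 : Per u σ (x - β) x :=
          Per.transfer (x - β) hσ0 hσ' runB dsuf h2 le_rfl (by omega) (by omega)
        exact runB.union h1 (by omega)
      · have h1 : Per u σ (x - β) x :=
          Per.transfer e hσ0 hσ' runB dsuf le_rfl h2 (by omega) (by omega)
        exact h1.mono h2 le_rfl
  have right : Per u σ x (m + (ℓ - e)) := by
    rcases le_total m x with h | h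
    · exact runA'.mono h le_rfl
    · have h1 : Per u σ x (x + β) :=
        Per.transfer m hσ0 hσ' runA' dpre le_rfl h (by omega) (by omega)
      exact h1.union runA' (by omega)
  have shifted : Per u σ (x - d) ℓ := by
    intro k hk hk'
    rw [o1 _ (by omega) (by omega), o1 _ (by omega) (by omega), ← o2 _ (by omega) hk',
      ← o2 k (by omega) (by omega), ← add_assoc]
    exact right _ (by omega) (by omega)
  have Y : Per u σ (x - d) x := shifted.union left (by omega)
  have Z : ∀ t, 0 ≤ t → t < e → u (x + t) = u (x - d + t) := by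
    intro t ht hte
    by_cases hlt : x + t < m
    · rw [show x + t = d + (x - d + t) by ring, o2 _ (by omega) (by omega),
        o1 (x - d + t) (by omega) (by omega)]
    · rw [show x + t = (x + t - m) + m by ring, hu, o1 (x + t - m) (by omega) (by omega),
        ← o2 (x + t - m) (by omega) (by omega), show d + (x + t - m) = (x - d + t) + σ by omega]
      exact Y _ (by omega) (by omega)
  refine hsp.noThree (e := e) (a := e) (b := d) (by omega) (by omega) (by omega) (by omega)
    (by omega) (by omega) hde ?_ ?_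
  · intro k hk hk'
    show u (x + (e + k)) = u (x + k)
    rw [show x + (e + k) = (x - d + k) + m by omega, hu, Z k hk hk']
  · intro k hk hk'
    show u (x + (d + k)) = u (x + k)
    rw [show x + (d + k) = (x - d + k + σ) + m by omega, hu, Z k hk hk']
    exact Y _ (by omega) (by omega)


theorem SP.congr {c c' : ℤ → α} {ℓ : ℤ} (h : SP c ℓ) (hc : ∀ k, 0 ≤ k → k < ℓ → c k = c' k) :
    SP c' ℓ := by
  intro e he heℓ hcon
  refine h e he heℓ ?_
  intro t ht htl
  obtain ⟨s, h1, h2, h3, h4, h5⟩ := hcon t ht htl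
  refine ⟨s, h1, h2, h3, h4, ?_⟩
  intro k hk hk'
  rw [hc _ (by omega) (by omega), hc _ hk (by omega)]
  exact h5 k hk hk'

/-- What is used about the length `ℓ` of a shortest cover of the cyclic shift by `i`. -/
structure Good (w : ℤ → α) (ℓ i : ℤ) : Prop where
  pos : 0 < ℓ
  cov : Cov (fun k => w (i + k)) w ℓ
  sq : ∀ k, 0 ≤ k → k < ℓ → w (i - ℓ + k) = w (i + k)
  sp : SP (fun k => w (i + k)) ℓ

theorem Good.ext {w : ℤ → α} {m j : ℤ} (h : Good w m j) :
    ∃ v : ℤ → α, (∀ t, v (t + m) = v t) ∧ ∀ t, j - m ≤ t → t < j + m → v t = w t := by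
  have hm := h.pos
  refine ⟨fun t => w (j + (t - j) % m), ?_, ?_⟩
  · intro t
    show w (j + (t + m - j) % m) = w (j + (t - j) % m)
    rw [show t + m - j = (t - j) + m by ring, Int.add_emod_right]
  · intro t h1 h2
    show w (j + (t - j) % m) = w t
    by_cases hlt : j ≤ t
    · rw [Int.emod_eq_of_lt (by omega) (by omega)]
      congr 1; ring
    · have e1 : (t - j) % m = t - j + m := by
        rw [← Int.add_emod_right, Int.emod_eq_of_lt (by omega) (by omega)]
      rw [e1, ← h.sq _ (by omega) (by omega)]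
      congr 1; ring

/-- No three such lengths lie within a factor `6/5`. -/
theorem noThreeGood {w : ℤ → α} {ℓ m n i j r : ℤ} (hC : Good w ℓ i) (hD : Good w m j)
    (hE : Good w n r) (hlm : ℓ < m) (hmn : m < n) (hH : 5 * (n - ℓ) ≤ m) : False := by
  obtain ⟨v, hv, hvw⟩ := hD.ext
  obtain ⟨v', hv', hvw'⟩ := hE.ext
  have hℓ := hC.pos
  have hspD : SP (fun k => v (j + k)) m :=
    hD.sp.congr (fun k hk hk' => (hvw _ (by omega) (by omega)).symm)
  have hspE : SP (fun k => v' (r + k)) n :=
    hE.sp.congr (fun k hk hk' => (hvw' _ (by omega) (by omega)).symm)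
  obtain ⟨p, d, e, hed, hde, he, o1, o2, pre, suf⟩ :=
    structure_of_pair hC.sp hC.cov hlm (by omega) hv hvw hspD
  obtain ⟨p', d', e', hed', hde', he', -, -, pre', suf'⟩ :=
    structure_of_pair hD.sp hD.cov hmn (by omega) hv' hvw' hspE
  -- normalise: the first occurrence of `C` at `0`
  set H := n - ℓ with hHdef
  set x := H + (j - p - H) % m with hx
  have hm : 0 < m := hD.pos
  have x0 : 0 ≤ (j - p - H) % m := Int.emod_nonneg _ (by omega)
  have x1 : (j - p - H) % m < m := Int.emod_lt_of_pos _ hm
  have hdiv : m * ((j - p - H) / m) + (j - p - H) % m = j - p - H :=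
    Int.mul_ediv_add_emod (j - p - H) m
  have hvz : ∀ (q : ℤ) t, v (t + m * q) = v t := by
    intro q
    induction q using Int.induction_on with
    | zero => intro t; simp
    | succ i ih => intro t; rw [show t + m * ((i : ℤ) + 1) = (t + m * i) + m by ring, hv, ih]
    | pred i ih =>
      intro t
      rw [← hv (t + m * (-(i : ℤ) - 1)),
        show t + m * (-(i : ℤ) - 1) + m = t + m * (-(i : ℤ)) by ring, ih]
  set u : ℤ → α := fun t => v (p + t) with hu_def
  have hu : ∀ t, u (t + m) = u t := by
    intro t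
    show v (p + (t + m)) = v (p + t)
    rw [← add_assoc, hv]
  have huD : ∀ k, 0 ≤ k → k < m → u (x + k) = w (j + k) := by
    intro k hk hk'
    show v (p + (x + k)) = w (j + k)
    have e1 : j + k = p + (x + k) + m * ((j - p - H) / m) := by
      rw [hx]; linarith
    rw [← hvw (j + k) (by omega) (by omega), e1, hvz]
  have o1u : ∀ k, 0 ≤ k → k < ℓ → u k = (fun k => w (i + k)) k := o1
  have o2u : ∀ k, 0 ≤ k → k < ℓ → u (d + k) = (fun k => w (i + k)) k := by
    intro k hk hk'
    show v (p + (d + k)) = _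
    rw [← add_assoc]; exact o2 k hk hk'
  have spu : SP (fun k => u (x + k)) m := hD.sp.congr (fun k hk hk' => (huD k hk hk').symm)
  have dpre : Per u (d' - e') x (x + (m - e')) := by
    intro k hk hk'
    have a1 := huD (k - x) (by omega) (by omega)
    have a2 := huD (k - x + (d' - e')) (by omega) (by omega)
    have a3 := pre' (k - x) (by omega) (by omega)
    rw [show x + (k - x) = k by ring] at a1
    rw [show x + (k - x + (d' - e')) = k + (d' - e') by ring] at a2
    rw [a1, a2]; exact a3
  have dsuf : Per u (d' - e') (x - (m - e')) x := by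
    intro k hk hk'
    have a1 := huD (k - x + m) (by omega) (by omega)
    have a2 := huD (k - x + m + (d' - e')) (by omega) (by omega)
    have a3 := suf' (k - x + m) (by omega) (by omega)
    rw [show x + (k - x + m) = k + m by ring, hu] at a1
    rw [show x + (k - x + m + (d' - e')) = (k + (d' - e')) + m by ring, hu] at a2
    rw [a1, a2]; exact a3
  by_cases hcase : 2 * x + 3 * H ≤ 2 * m
  · exact cutOne (c := fun k => w (i + k)) (H := H) hu o1u o2u hed hde he hlm pre suf (by omega) dpre dsuf
      (by omega) (by omega) (by omega) (by omega) hcase spu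
  · exact cutTwo (c := fun k => w (i + k)) (H := H) hu o1u o2u hed hde he hlm pre suf (by omega) dpre dsuf
      (by omega) (by omega) (by omega) (by omega) (by omega) spu

end core

section lists
variable {α : Type u}

theorem occursAt_iff {C S : List α} {s : ℕ} :
    OccursAt C S s ↔ ∀ k (h : k < C.length), S[s + k]? = some C[k] := by
  unfold OccursAt
  rw [List.prefix_iff_getElem?]
  simp only [List.getElem?_drop]

/-- The bi-infinite word with period `S`. -/
noncomputable def wordOf (S : List α) (hS : 0 < S.length) (t : ℤ) : α :=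
  S[(t % (S.length : ℤ)).toNat]'(by
    have h1 : 0 ≤ t % (S.length : ℤ) := Int.emod_nonneg _ (by omega)
    have h2 : t % (S.length : ℤ) < S.length := Int.emod_lt_of_pos _ (by omega)
    omega)

theorem wordOf_add_mul (S : List α) (hS : 0 < S.length) (t q : ℤ) :
    wordOf S hS (t + S.length * q) = wordOf S hS t := by
  unfold wordOf
  congr 2
  rw [Int.add_mul_emod_self_left]

theorem rotate_getElem? (S : List α) (hS : 0 < S.length) (i k : ℕ) (hk : k < S.length) :
    (S.rotate i)[k]? = some (wordOf S hS ((i : ℤ) + k)) := by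
  rw [List.getElem?_rotate hk]
  have hlt : (k + i) % S.length < S.length := Nat.mod_lt _ hS
  rw [List.getElem?_eq_getElem hlt]
  unfold wordOf
  congr 2
  have : ((i : ℤ) + k) % (S.length : ℤ) = (((k + i) % S.length : ℕ) : ℤ) := by
    push_cast; rw [add_comm]
  rw [this, Int.toNat_natCast]

theorem good_of_shortestCover (S : List α) (hS : 0 < S.length) (i : ℕ) (C : List α)
    (hC : IsShortestCover C (S.rotate i)) : Good (wordOf S hS) C.length i := by
  obtain ⟨⟨hne, hcov⟩, hmin⟩ := hC
  rw [List.length_rotate] at hcov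
  have hpos : 0 < C.length := List.length_pos_iff.mpr hne
  -- an occurrence fits inside
  have hocc : ∀ s, OccursAt C (S.rotate i) s → s + C.length ≤ S.length ∧
      ∀ k (h : k < C.length), C[k] = wordOf S hS ((i : ℤ) + s + k) := by
    intro s hs
    rw [occursAt_iff] at hs
    have hfit : s + C.length ≤ S.length := by
      have h1 := hs (C.length - 1) (by omega)
      have h2 : s + (C.length - 1) < (S.rotate i).length := by
        by_contra hcon
        rw [List.getElem?_eq_none (by omega)] at h1
        simp at h1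
      rw [List.length_rotate] at h2
      omega
    refine ⟨hfit, ?_⟩
    intro k hk
    have h1 := hs k hk
    rw [rotate_getElem? S hS i (s + k) (by omega)] at h1
    have h2 := Option.some.inj h1
    rw [← h2]; congr 1; push_cast; ring
  -- the word `C` is the factor of the bi-infinite word at `i`
  have hword : ∀ k (h : k < C.length), C[k] = wordOf S hS ((i : ℤ) + k) := by
    intro k hk
    obtain ⟨s, hs, -, ho⟩ := hcov 0 hS
    obtain rfl : s = 0 := by omega
    have := (hocc 0 ho).2 k hk
    rw [this]; congr 1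
  refine ⟨by exact_mod_cast hpos, ?_, ?_, ?_⟩
  · intro t
    have r0 : 0 ≤ (t - i) % (S.length : ℤ) := Int.emod_nonneg _ (by omega)
    have r1 : (t - i) % (S.length : ℤ) < S.length := Int.emod_lt_of_pos _ (by omega)
    have hdiv : (S.length : ℤ) * ((t - i) / (S.length : ℤ)) + (t - i) % (S.length : ℤ) = t - i :=
      Int.mul_ediv_add_emod (t - i) (S.length : ℤ)
    obtain ⟨s, hs1, hs2, ho⟩ := hcov ((t - i) % (S.length : ℤ)).toNat (by omega)
    refine ⟨(i : ℤ) + s + S.length * ((t - i) / (S.length : ℤ)), by omega, by omega, ?_⟩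
    intro k hk hk'
    lift k to ℕ using hk
    have hk2 : k < C.length := by exact_mod_cast hk'
    show wordOf S hS _ = wordOf S hS _
    rw [← hword k hk2, (hocc s ho).2 k hk2,
      show (i : ℤ) + s + S.length * ((t - i) / (S.length : ℤ)) + k
        = ((i : ℤ) + s + k) + S.length * ((t - i) / (S.length : ℤ)) by ring, wordOf_add_mul]
  · intro k hk hk'
    lift k to ℕ using hk
    have hk2 : k < C.length := by exact_mod_cast hk'
    obtain ⟨s, hs1, hs2, ho⟩ := hcov (S.length - 1) (by omega)
    have hfit := (hocc s ho).1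
    have hseq : (s : ℤ) = S.length - C.length := by omega
    rw [← hword k hk2, (hocc s ho).2 k hk2, hseq,
      ← wordOf_add_mul S hS ((i : ℤ) - C.length + k) 1]
    congr 1; ring
  · intro e he heℓ hcon
    obtain ⟨E, rfl⟩ := Int.eq_ofNat_of_zero_le he.le
    have hE0 : 0 < E := by exact_mod_cast he
    have hEl : E < C.length := by exact_mod_cast heℓ
    have hlen : (C.take E).length = E := by rw [List.length_take]; omega
    have hcover : IsCover (C.take E) (S.rotate i) := by
      refine ⟨?_, ?_⟩
      · intro h0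
        rw [h0] at hlen; simp at hlen; omega
      · rw [List.length_rotate]
        intro p hp
        obtain ⟨s, hs1, hs2, ho⟩ := hcov p hp
        obtain ⟨s', a1, a2, a3, a4, a5⟩ := hcon ((p : ℤ) - s) (by omega) (by omega)
        lift s' to ℕ using a1
        refine ⟨s + s', by omega, by rw [hlen]; omega, ?_⟩
        rw [occursAt_iff]
        intro k hk
        rw [hlen] at hk
        have b1 := hocc s ho
        rw [rotate_getElem? S hS i (s + s' + k) (by omega)]
        congr 1
        rw [List.getElem_take]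
        have b2 := b1.2 (s' + k) (by omega)
        have b3 := hword (s' + k) (by omega)
        have b4 : wordOf S hS ((i : ℤ) + ((s' : ℤ) + (k : ℤ))) = wordOf S hS ((i : ℤ) + (k : ℤ)) :=
          a5 k (by omega) (by omega)
        have b5 := hword k (by omega)
        have b6 : wordOf S hS ((i : ℤ) + ((s + s' + k : ℕ) : ℤ)) = C[s' + k]'(by omega) := by
          rw [b2]; congr 1; push_cast; ring
        rw [b6, b3, b5, ← b4]
        congr 1
    have := hmin _ hcover
    omega

theorem length_le_of_mem {S : List α} {l : ℕ} (hl : l ∈ CyCoSet S) : 1 ≤ l ∧ l ≤ S.length := by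
  obtain ⟨i, hi, C, ⟨⟨hne, hcov⟩, -⟩, rfl⟩ := hl
  have hpos : 0 < C.length := List.length_pos_iff.mpr hne
  refine ⟨hpos, ?_⟩
  rw [List.length_rotate] at hcov
  obtain ⟨s, hs1, hs2, ho⟩ := hcov 0 (by omega)
  have h1 := ho.length_le
  rw [List.length_drop, List.length_rotate] at h1
  omega

theorem spaced {S : List α} {x y z : ℕ} (hx : x ∈ CyCoSet S) (hy : y ∈ CyCoSet S)
    (hz : z ∈ CyCoSet S) (hxy : x < y) (hyz : y < z) : y + 5 * x < 5 * z := by
  obtain ⟨i, hi, C, hC, rfl⟩ := hx
  obtain ⟨j, hj, D, hD, rfl⟩ := hy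
  obtain ⟨r, hr, E, hE, rfl⟩ := hz
  have hS : 0 < S.length := by omega
  by_contra hcon
  exact noThreeGood (good_of_shortestCover S hS i C hC) (good_of_shortestCover S hS j D hD)
    (good_of_shortestCover S hS r E hE) (by omega) (by omega) (by omega)

end lists

/-- A set of positive integers which is spaced in this way is logarithmically small. -/
theorem card_le_of_spaced (A : Finset ℕ) (hpos : ∀ x ∈ A, 1 ≤ x)
    (hsp : ∀ x ∈ A, ∀ y ∈ A, ∀ z ∈ A, x < y → y < z → y + 5 * x < 5 * z) (N : ℕ) (hN : 1 ≤ N) :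
    (((A.filter (· ≤ N)).card : ℕ) : ℝ) ≤ 2 + 12 * Real.log N := by
  induction N using Nat.strong_induction_on with
  | _ N ih =>
    set M := 5 * N / 6 with hM
    have hMN : M < N := by omega
    have hsplit : (A.filter (· ≤ N)).card ≤ (A.filter (· ≤ M)).card + 2 := by
      have h1 : A.filter (· ≤ N) ⊆ A.filter (· ≤ M) ∪ A.filter (fun x => M < x ∧ x ≤ N) := by
        intro x hx
        rw [Finset.mem_filter] at hx
        rw [Finset.mem_union, Finset.mem_filter, Finset.mem_filter]
        by_cases h : x ≤ M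
        · exact Or.inl ⟨hx.1, h⟩
        · exact Or.inr ⟨hx.1, by omega, hx.2⟩
      have h2 : (A.filter (fun x => M < x ∧ x ≤ N)).card ≤ 2 := by
        by_contra hcon
        push Not at hcon
        rw [Finset.two_lt_card_iff] at hcon
        obtain ⟨a, b, c, ha, hb, hc, hab, hac, hbc⟩ := hcon
        rw [Finset.mem_filter] at ha hb hc
        obtain ⟨ha, ha1, ha2⟩ := ha
        obtain ⟨hb, hb1, hb2⟩ := hb
        obtain ⟨hc, hc1, hc2⟩ := hc
        rcases lt_or_gt_of_ne hab with h1 | h1 <;> rcases lt_or_gt_of_ne hac with h2 | h2 <;>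
          rcases lt_or_gt_of_ne hbc with h3 | h3
        · have := hsp a ha b hb c hc h1 h3; omega
        · have := hsp a ha c hc b hb h2 h3; omega
        · omega
        · have := hsp c hc a ha b hb h2 h1; omega
        · have := hsp b hb a ha c hc h1 h2; omega
        · omega
        · have := hsp b hb c hc a ha h3 h2; omega
        · have := hsp c hc b hb a ha h3 h1; omega
      calc (A.filter (· ≤ N)).card ≤ (A.filter (· ≤ M) ∪ A.filter (fun x => M < x ∧ x ≤ N)).card :=
            Finset.card_le_card h1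
        _ ≤ _ := Finset.card_union_le _ _
        _ ≤ _ := by omega
    have hlogN : 0 ≤ Real.log N := Real.log_natCast_nonneg N
    have hcast : (((A.filter (· ≤ N)).card : ℕ) : ℝ) ≤ (((A.filter (· ≤ M)).card : ℕ) : ℝ) + 2 := by
      exact_mod_cast hsplit
    rcases Nat.eq_zero_or_pos M with h0 | h0
    · have hz : (A.filter (· ≤ M)).card = 0 := by
        rw [Finset.card_eq_zero, Finset.filter_eq_empty_iff]
        intro x hx
        have := hpos x hx
        omega
      rw [hz] at hcast
      push_cast at hcast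
      linarith
    · have hih := ih M hMN h0
      have hMr : (M : ℝ) ≤ (5 / 6) * N := by
        have : 6 * M ≤ 5 * N := by omega
        have h' : (6 * M : ℝ) ≤ 5 * N := by exact_mod_cast this
        linarith
      have hM0 : (0 : ℝ) < M := by exact_mod_cast h0
      have hN0 : (0 : ℝ) < N := by exact_mod_cast (by omega : 0 < N)
      have h1 : Real.log M ≤ Real.log ((5 / 6) * N) := Real.log_le_log hM0 hMr
      rw [Real.log_mul (by norm_num) hN0.ne'] at h1
      have h2 : Real.log (5 / 6 : ℝ) ≤ 5 / 6 - 1 := Real.log_le_sub_one_of_pos (by norm_num)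
      linarith

/-- For every word `S` of length `n ≥ 2` over any alphabet, the cyclic shifts of `S` have at most
`15 log n` different shortest-cover lengths. -/
theorem result (α : Type u) (S : List α) (hS : 2 ≤ S.length) :
    (CyCoSet S).Finite ∧ ((CyCoSet S).ncard : ℝ) ≤ 15 * Real.log S.length := by
  have hfin : (CyCoSet S).Finite :=
    (Set.finite_Icc 1 S.length).subset (fun l hl => length_le_of_mem hl)
  refine ⟨hfin, ?_⟩
  have hcard : (CyCoSet S).ncard = (hfin.toFinset.filter (· ≤ S.length)).card := by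
    rw [Set.ncard_eq_toFinset_card _ hfin]
    congr 1
    ext x
    rw [Finset.mem_filter, Set.Finite.mem_toFinset]
    exact ⟨fun h => ⟨h, (length_le_of_mem h).2⟩, fun h => h.1⟩
  have h1 := card_le_of_spaced hfin.toFinset
    (fun x hx => (length_le_of_mem ((Set.Finite.mem_toFinset hfin).mp hx)).1)
    (fun x hx y hy z hz => spaced ((Set.Finite.mem_toFinset hfin).mp hx)
      ((Set.Finite.mem_toFinset hfin).mp hy) ((Set.Finite.mem_toFinset hfin).mp hz))
    S.length (by omega)
  rw [hcard]
  have h2 : Real.log 2 ≤ Real.log S.length :=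
    Real.log_le_log (by norm_num) (by exact_mod_cast hS)
  have h3 := Real.log_two_gt_d9
  linarith

end Pool.Agent.Results.MP_419f2f_co.LogBound
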